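import Pool.Agent.H9.NR2

namespace Pool.Agent.Results.MP_aef148_an.Counter

variable (X : Type) [NormedAddCommGroup X] [NormedSpace ℝ X]

/-- numerical radius `v(T)` -/
noncomputable def numRad (T : X →L[ℝ] X) : ℝ :=
  sSup {r | ∃ (x : X) (f : X →L[ℝ] ℝ), ‖x‖ = 1 ∧ ‖f‖ = 1 ∧ f x = 1 ∧ r = |f (T x)|}

/-- numerical index `n(X)` -/
noncomputable def index : ℝ := sInf {r | ∃ T : X →L[ℝ] X, ‖T‖ = 1 ∧ r = numRad X T}

/-- `𝒩(X)`: the numerical indices of the normed spaces linearly homeomorphic to `X`, that is, of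
`X` under its equivalent norms -/
def indices : Set ℝ := {r | ∃ (Z : Type) (_ : NormedAddCommGroup Z) (_ : NormedSpace ℝ Z),
  Nonempty (Z ≃L[ℝ] X) ∧ r = index Z}

theorem result : ∃ (X : Type) (_ : NormedAddCommGroup X) (_ : NormedSpace ℝ X), CompleteSpace X ∧
    ∃ Y : Submodule ℝ X, IsClosed (Y : Set X) ∧ ¬FiniteDimensional ℝ Y ∧
      1 ∈ indices Y ∧ 1 ∉ indices X := by
  obtain ⟨X, _, _, h1, Y, h2, h3, ⟨Z, _, _, _, h4, h5⟩, _, h6⟩ := H9.NR1.fin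
  refine ⟨X, _, _, h1, Y, h2, h3, ⟨Z, _, _, h4, ((H9.NR1.idx Z).2 h5).symm⟩,
    fun ⟨W, _, _, ⟨E⟩, e⟩ => ?_⟩
  have := E.surjective.nontrivial
  exact h6 W _ _ E ((H9.NR1.idx W).1 e.symm)

end Pool.Agent.Results.MP_aef148_an.Counter
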